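import Mathlib
import Pool.Agent.Lib.MP_30d976_nt.Defs
import Pool.Agent.Lib.MP_30d976_nt.Places
import Pool.Agent.Lib.MP_30d976_nt.Growth

open Pool.Agent.Lib.MP30d976

namespace Pool.Agent.Results.MP_30d976_nt.RamGrowth

theorem result (p : ℕ) [Fact p.Prime] (k K L : Type*) [Field k] [Finite k] [CharP k p]
    [Field K] [Algebra k K] [Field L] [Algebra K L] [Algebra k L] [IsScalarTower k K L]
    (hT : IsZpTower p k K L) (frob : UnramifiedPoint k K L → (L ≃ₐ[K] L))
    (_hfrob : ∀ x : UnramifiedPoint k K L, x.1.IsFrobenius (frob x)) :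
    ∃ c : ℝ, 0 < c ∧ ∃ N : ℕ, ∀ n : ℕ, N ≤ n → ∀ χ : Character p K L,
      HasExactOrder χ (p ^ n) → ∀ P : Polynomial ℂ_[p], IsLPolynomial frob χ P →
      c ≤ (ramificationIndex (reciprocalRootField P) : ℝ) / (p : ℝ) ^ n := by
  obtain ⟨e⟩ := hT.group
  have hinf := ClosedPoint.infinite hT.curve
  have hne : Nonempty (UnramifiedPoint k K L) := by
    obtain ⟨x, hx⟩ := hT.finite_ramified.exists_notMem
    exact ⟨⟨x, by simpa using hx⟩⟩
  have hfin : ∀ m : ℕ, {x : UnramifiedPoint k K L | x.1.degree ≤ m}.Finite := by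
    intro m
    exact Set.Finite.preimage Subtype.val_injective.injOn (ClosedPoint.finite_degree_le hT.curve m)
  obtain ⟨c, hc, N, h⟩ := core_growth (p := p) (fun x : UnramifiedPoint k K L => x.1.degree)
    (fun x => x.1.degree_ne_zero hT.curve) hfin
    (fun x => Multiplicative.toAdd (e (frob x)))
  refine ⟨c, hc, N, ?_⟩
  intro n hn χ hχ P hP
  rw [HasExactOrder] at hχ
  rw [IsLPolynomial] at hP
  set κ : Multiplicative ℤ_[p] →* ℂ_[p]ˣ := χ.comp (e.symm : Multiplicative ℤ_[p] →* (L ≃ₐ[K] L))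
    with hκ
  have hκe : ∀ σ : L ≃ₐ[K] L, κ (e σ) = χ σ := by
    intro σ
    rw [hκ]
    simp
  have hord : orderOf κ = p ^ n := by
    rw [← hχ]
    apply orderOf_eq_orderOf_iff.2
    intro m
    constructor
    · intro h1
      ext σ
      have h2 := DFunLike.congr_fun h1 (e σ)
      simp only [MonoidHom.pow_apply, MonoidHom.one_apply, hκe] at h2
      simp only [MonoidHom.pow_apply, MonoidHom.one_apply, h2]
    · intro h1
      refine MonoidHom.ext fun w => ?_
      obtain ⟨σ, rfl⟩ := e.surjective w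
      have h2 := DFunLike.congr_fun h1 σ
      simp only [MonoidHom.pow_apply, MonoidHom.one_apply] at h2
      simp only [MonoidHom.pow_apply, MonoidHom.one_apply, hκe, h2]
  apply h n hn κ hord P
  rw [hP, LFunction]
  congr 1
  ext x
  rw [ofAdd_toAdd, hκe, eulerFactor]

end Pool.Agent.Results.MP_30d976_nt.RamGrowth
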